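import Mathlib
import Pool.Agent.T6.H41.EP.Model2

/-!
Let `F` be a field of characteristic zero. The equality problem is undecidable in the variety
`M(n)` generated by the `n × n` matrices over `F` for every `n ≥ 3`, and in the variety `S(n)`
defined by the standard identity `s_n = 0` for every `n ≥ 6`. More precisely, there is one finite
list `U` of noncommutative polynomials with rational coefficients and without constant term such
that in each of these varieties (of all algebras, or of unital algebras, over any field of
characteristic zero) no algorithm decides, for a given polynomial `u`, whether the quasi-identity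
`U = 0 → u = 0` holds. The same is true for every variety which contains the algebra `E₄` of the
lower triangular `4 × 4` matrices with equal first and last diagonal entries.

Idea of the proof. A two-counter machine acts on the words `A a^i c^j s b^k d^l Z`, where the
counters are the exponents and `s` is a state letter; the tests for zero are relations which
involve the end markers `A` or `Z`. If the machine never halts then the word of the initial
configuration is nonzero in a suitable quotient of an algebra of lower triangular `4 × 4` matrices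
over a polynomial ring, where `A`, the state letters, and `Z` are multiples of `E₃₂`, `E₂₁`, `E₁₀`
and `a, c` and `b, d` are multiples of `E₂₂` and `E₁₁`. Since nothing happens at the corners, the
first and last index may be identified, and the identities of `M_3(F)` hold in this algebra.
-/

set_option autoImplicit false

namespace Pool.Agent.Results.MP_79b5eb_lc.MatrixAndStandard

universe u

/-- A noncommutative polynomial in `x_0, x_1, …` with rational coefficients and without constant
term, given as a list of terms; the entry `((z, d), (i, w))` is the term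
`(z / (d + 1)) x_i x_{w_1} x_{w_2} ⋯`. -/
abbrev Poly : Type := List ((ℤ × ℕ) × (ℕ × List ℕ))

/-- The quasi-identity `u₁ = 0 ∧ ⋯ ∧ u_k = 0 → u = 0` is given by the pair `([u₁, …, u_k], u)`. -/
abbrev QuasiIdentity : Type := List Poly × Poly

/-- The value of the nonempty word `x_i x_{w_1} x_{w_2} ⋯`. -/
def word {R : Type*} [Mul R] (v : ℕ → R) (w : ℕ × List ℕ) : R :=
  w.2.foldl (fun y j => y * v j) (v w.1)

/-- The value of a polynomial at `v_0, v_1, …` in an algebra over `F` (no unit is needed). -/
def value (F : Type*) [Field F] {R : Type*} [NonUnitalRing R] [Module F R] (v : ℕ → R)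
    (p : Poly) : R :=
  (p.map fun t => ((t.1.1 : F) / ((t.1.2 : F) + 1)) • word v t.2).sum

/-- The quasi-identity holds in the algebra `R`. -/
def Holds (F : Type*) [Field F] (R : Type*) [NonUnitalRing R] [Module F R]
    (φ : QuasiIdentity) : Prop :=
  ∀ v : ℕ → R, (∀ p ∈ φ.1, value F v p = 0) → value F v φ.2 = 0

/-- The equality problem in the variety of all associative `F`-algebras (with or without unit) in
which the polynomials of the set `T` are identities: that the quasi-identity `φ` holds in
every algebra of the variety. Polynomials are evaluated in the algebra with a unit adjoined. -/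
def Equality (F : Type u) [Field F] (T : Set (FreeAlgebra F ℕ)) (φ : QuasiIdentity) : Prop :=
  ∀ (R : Type u) [NonUnitalRing R] [Module F R] [IsScalarTower F R R] [SMulCommClass F R R],
    (∀ r ∈ T, ∀ v : ℕ → R, FreeAlgebra.lift F (fun i => (v i : Unitization F R)) r = 0) →
      Holds F R φ

/-- The same for the variety of unital associative `F`-algebras. -/
def UnitalEquality (F : Type u) [Field F] (T : Set (FreeAlgebra F ℕ)) (φ : QuasiIdentity) : Prop :=
  ∀ (R : Type u) [Ring R] [Algebra F R],
    (∀ r ∈ T, ∀ v : ℕ → R, FreeAlgebra.lift F v r = 0) → Holds F R φ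

/-- All identities of the algebra of the `n × n` matrices over `F`. The algebras in which they
hold form the variety `M(n)`. -/
def matrixIdentities (F : Type*) [Field F] (n : ℕ) : Set (FreeAlgebra F ℕ) :=
  {r | ∀ A : ℕ → Matrix (Fin n) (Fin n) F, FreeAlgebra.lift F A r = 0}

/-- The standard polynomial `s_n = ∑_σ sgn(σ) x_{σ(1)} ⋯ x_{σ(n)}`. The variety `S(n)` is
defined by `s_n = 0`. -/
def standard (F : Type*) [Field F] (n : ℕ) : FreeAlgebra F ℕ :=
  ∑ σ : Equiv.Perm (Fin n),
    Equiv.Perm.sign σ • (List.ofFn fun i => FreeAlgebra.ι F ((σ i : Fin n) : ℕ)).prod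

/-- The algebra `E₄` of the lower triangular `4 × 4` matrices with equal first and last diagonal
entry. -/
def E4 (F : Type*) [Field F] : Set (Matrix (Fin 4) (Fin 4) F) :=
  {A | (∀ i j, i < j → A i j = 0) ∧ A 0 0 = A 3 3}

section words

variable {F : Type*} [Field F]

theorem word_eq {S : Type*} [Ring S] (w : ℕ → S) (l : ℕ × List ℕ) :
    word w l = w l.1 * (l.2.map w).prod := by
  obtain ⟨i, l⟩ := l
  unfold word
  simp only
  induction l using List.reverseRecOn with
  | nil => simp
  | append_singleton l j ih =>
    rw [List.foldl_append, List.foldl_cons, List.foldl_nil, ih, List.map_append, List.prod_append,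
      List.map_singleton, List.prod_singleton, mul_assoc]

theorem word_inr {R : Type*} [NonUnitalRing R] [Module F R] [IsScalarTower F R R]
    [SMulCommClass F R R] (v : ℕ → R) (l : ℕ × List ℕ) :
    ((word v l : R) : Unitization F R) = word (fun i => (v i : Unitization F R)) l := by
  obtain ⟨i, l⟩ := l
  unfold word
  simp only
  induction l using List.reverseRecOn with
  | nil => rfl
  | append_singleton l j ih =>
    rw [List.foldl_append, List.foldl_cons, List.foldl_nil, Unitization.inr_mul, ih,
      List.foldl_append, List.foldl_cons, List.foldl_nil]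

theorem value_inr {R : Type*} [NonUnitalRing R] [Module F R] [IsScalarTower F R R]
    [SMulCommClass F R R] (v : ℕ → R) (p : Poly) :
    ((value F v p : R) : Unitization F R) = value F (fun i => (v i : Unitization F R)) p := by
  unfold value
  induction p with
  | nil => simp
  | cons t p ih =>
    rw [List.map_cons, List.map_cons, List.sum_cons, List.sum_cons, Unitization.inr_add, ih,
      Unitization.inr_smul, word_inr]

end words

open Pool.Agent.Helper270.WPSource Pool.Agent.T6.H41.EP

section machine

variable {Q : Type} (M : Sys Q Bool) (num : Gn Q M.B → ℕ)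

/-- the code of a nonempty word -/
def code : List (Gn Q M.B) → ℕ × List ℕ
  | [] => (0, [])
  | z :: l => (num z, l.map num)

/-- the polynomial `l₁ - l₂` -/
def pol (l₁ l₂ : List (Gn Q M.B)) : Poly :=
  [((1, 0), code M num l₁), ((-1, 0), code M num l₂)]

theorem word_code {S : Type*} [Ring S] (w : ℕ → S) {l : List (Gn Q M.B)} (hl : l ≠ []) :
    word w (code M num l) = (l.map fun z => w (num z)).prod := by
  cases l with
  | nil => exact absurd rfl hl
  | cons z l =>
    rw [word_eq]
    unfold code
    simp only [List.map_cons, List.prod_cons, List.map_map]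
    rfl

theorem value_pol {F : Type*} [Field F] {S : Type*} [Ring S] [Algebra F S] (w : ℕ → S)
    {l₁ l₂ : List (Gn Q M.B)} (h₁ : l₁ ≠ []) (h₂ : l₂ ≠ []) :
    value F w (pol M num l₁ l₂) = 0 ↔
      (l₁.map fun z => w (num z)).prod = (l₂.map fun z => w (num z)).prod := by
  unfold value pol
  simp only [List.map_cons, List.map_nil, List.sum_cons, List.sum_nil, add_zero,
    word_code M num w h₁, word_code M num w h₂]
  simp [← sub_eq_add_neg, sub_eq_zero]

theorem value_one {F : Type*} [Field F] {S : Type*} [Ring S] [Algebra F S] (w : ℕ → S)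
    {l : List (Gn Q M.B)} (h : l ≠ []) :
    value F w [((1, 0), code M num l)] = (l.map fun z => w (num z)).prod := by
  unfold value
  simp only [List.map_cons, List.map_nil, List.sum_cons, List.sum_nil, add_zero,
    word_code M num w h]
  simp

/-- the last relation for a state of the second phase -/
def last (p : Q × (Bool → Fin M.B)) : Poly :=
  match M.nxt p.1 p.2 with
  | none => [((1, 0), code M num [ly M p.1 p.2, lZ M])]
  | some q' => pol M num [ly M p.1 p.2, lZ M]
      (List.replicate (M.b p.1 p.2 true) (la M) ++ (List.replicate (M.b p.1 p.2 false) (lc M) ++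
        [lx M q', lZ M]))

/-- the relations of the machine as polynomials -/
noncomputable def rl [Fintype Q] : List Poly :=
  [pol M num [la M, lc M] [lc M, la M]] ++
  ((Finset.univ : Finset Q).toList.map fun q =>
    pol M num (List.replicate M.B (la M) ++ [lx M q]) [lx M q, lb M]) ++
  ((Finset.univ : Finset Q).toList.map fun q =>
    pol M num (List.replicate M.B (lc M) ++ [lx M q]) [lx M q, ld M]) ++
  ((Finset.univ : Finset (Q × (Bool → Fin M.B))).toList.map fun p =>
    pol M num (lA M :: (List.replicate (p.2 false : ℕ) (lc M) ++
      (List.replicate (p.2 true : ℕ) (la M) ++ [lx M p.1]))) [lA M, ly M p.1 p.2]) ++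
  ((Finset.univ : Finset (Q × (Bool → Fin M.B))).toList.map fun p =>
    pol M num [ly M p.1 p.2, lb M]
      (List.replicate (M.a p.1 p.2 true) (la M) ++ [ly M p.1 p.2])) ++
  ((Finset.univ : Finset (Q × (Bool → Fin M.B))).toList.map fun p =>
    pol M num [ly M p.1 p.2, ld M]
      (List.replicate (M.a p.1 p.2 false) (lc M) ++ [ly M p.1 p.2])) ++
  ((Finset.univ : Finset (Q × (Bool → Fin M.B))).toList.map fun p => last M num p)

theorem rl_iff [Fintype Q] {F : Type*} [Field F] {S : Type*} [Ring S] [Algebra F S] (w : ℕ → S) :
    (∀ p ∈ rl M num, value F w p = 0) ↔ Rels M (fun z => w (num z)) := by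
  have h1 : (∀ p ∈ rl M num, value F w p = 0) ↔
      value F w (pol M num [la M, lc M] [lc M, la M]) = 0 ∧
      (∀ q, value F w (pol M num (List.replicate M.B (la M) ++ [lx M q]) [lx M q, lb M]) = 0) ∧
      (∀ q, value F w (pol M num (List.replicate M.B (lc M) ++ [lx M q]) [lx M q, ld M]) = 0) ∧
      (∀ p : Q × (Bool → Fin M.B), value F w (pol M num
        (lA M :: (List.replicate (p.2 false : ℕ) (lc M) ++
          (List.replicate (p.2 true : ℕ) (la M) ++ [lx M p.1]))) [lA M, ly M p.1 p.2]) = 0) ∧
      (∀ p : Q × (Bool → Fin M.B), value F w (pol M num [ly M p.1 p.2, lb M]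
        (List.replicate (M.a p.1 p.2 true) (la M) ++ [ly M p.1 p.2])) = 0) ∧
      (∀ p : Q × (Bool → Fin M.B), value F w (pol M num [ly M p.1 p.2, ld M]
        (List.replicate (M.a p.1 p.2 false) (lc M) ++ [ly M p.1 p.2])) = 0) ∧
      (∀ p : Q × (Bool → Fin M.B), value F w (last M num p) = 0) := by
    unfold rl
    simp only [List.mem_append, List.mem_map, Finset.mem_toList, Finset.mem_univ, true_and,
      List.mem_singleton, or_imp, forall_and, forall_eq, forall_exists_index,
      forall_apply_eq_imp_iff, and_assoc]
  have h7 : ∀ p : Q × (Bool → Fin M.B), value F w (last M num p) = 0 ↔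
      (M.nxt p.1 p.2 = none → w (num (ly M p.1 p.2)) * w (num (lZ M)) = 0) ∧
      (∀ q', M.nxt p.1 p.2 = some q' → w (num (ly M p.1 p.2)) * w (num (lZ M))
        = w (num (la M)) ^ M.b p.1 p.2 true * (w (num (lc M)) ^ M.b p.1 p.2 false *
          (w (num (lx M q')) * w (num (lZ M))))) := by
    intro p
    unfold last
    cases hn : M.nxt p.1 p.2 with
    | none =>
      simp only [value_one M num w (l := [ly M p.1 p.2, lZ M]) (by simp)]
      simp
    | some q' =>
      simp only [value_pol M num w (l₁ := [ly M p.1 p.2, lZ M])
        (l₂ := (List.replicate (M.b p.1 p.2 true) (la M) ++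
          (List.replicate (M.b p.1 p.2 false) (lc M) ++ [lx M q', lZ M])))
        (by simp) (by simp)]
      simp
  rw [h1]
  simp only [h7]
  rw [value_pol M num w (by simp) (by simp)]
  simp only [value_pol M num w (l₁ := (List.replicate M.B (la M) ++ [lx M _]))
    (l₂ := [lx M _, lb M]) (by simp) (by simp)]
  simp only [value_pol M num w (l₁ := (List.replicate M.B (lc M) ++ [lx M _]))
    (l₂ := [lx M _, ld M]) (by simp) (by simp)]
  simp only [value_pol M num w (l₁ := lA M :: _) (l₂ := [lA M, ly M _ _]) (by simp) (by simp)]
  simp only [value_pol M num w (l₁ := [ly M _ _, lb M])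
    (l₂ := List.replicate _ (la M) ++ [ly M _ _]) (by simp) (by simp)]
  simp only [value_pol M num w (l₁ := [ly M _ _, ld M])
    (l₂ := List.replicate _ (lc M) ++ [ly M _ _]) (by simp) (by simp)]
  simp only [List.map_append, List.map_cons, List.map_nil, List.map_replicate, List.prod_append,
    List.prod_cons, List.prod_nil, List.prod_replicate, mul_one, Prod.forall]
  constructor
  · rintro ⟨e1, e2, e3, e4, e5, e6, e7⟩
    exact ⟨e1, e2, e3, e4, e5, e6, fun q ρ q' h => (e7 q ρ).2 q' h, fun q ρ h => (e7 q ρ).1 h⟩
  · intro R
    exact ⟨R.ac, R.r1, R.r2, R.r3, R.r4, R.r5, fun q ρ => ⟨R.r7 q ρ, R.r6 q ρ⟩⟩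

/-- the word of the configuration -/
def wd (q : Q) (N : ℕ) : Poly :=
  [((1, 0), (num (lA M), List.replicate N (num (la M)) ++ [num (lx M q), num (lZ M)]))]

theorem value_wd {F : Type*} [Field F] {S : Type*} [Ring S] [Algebra F S] (w : ℕ → S)
    (q : Q) (N : ℕ) : value F w (wd M num q N) = w (num (lA M)) * (w (num (la M)) ^ N *
      (w (num (lx M q)) * w (num (lZ M)))) := by
  unfold value wd
  simp only [List.map_cons, List.map_nil, List.sum_cons, List.sum_nil, add_zero, word_eq]
  simp

theorem wd_computable (q : Q) {N : ℕ → ℕ} (hN : Computable N) :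
    Computable fun n => wd M num q (N n) := by
  have h1 : Computable fun n : ℕ => List.replicate n (num (la M)) := by
    have h2 : Primrec fun n : ℕ => (List.range n).map fun _ => num (la M) :=
      Primrec.list_map Primrec.list_range (Primrec.const _).to₂
    refine h2.to_comp.of_eq fun n => ?_
    rw [List.map_const', List.length_range]
  have h2 : Computable fun n : ℕ => (List.replicate (N n) (num (la M)) ++
      [num (lx M q), num (lZ M)]) :=
    Computable.list_append.comp (h1.comp hN) (Computable.const _)
  have h3 : Computable fun n : ℕ => (((1, 0), (num (lA M), List.replicate (N n) (num (la M)) ++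
      [num (lx M q), num (lZ M)])) : (ℤ × ℕ) × (ℕ × List ℕ)) :=
    Computable.pair (Computable.const _) (Computable.pair (Computable.const _) h2)
  exact Computable.list_cons.comp h3 (Computable.const [])

end machine

theorem lift_unitization {F : Type u} [Field F] {S : Type u} [Ring S] [Algebra F S]
    (r : FreeAlgebra F ℕ) (h0 : FreeAlgebra.lift F (fun _ : ℕ => (0 : F)) r = 0) (v : ℕ → S)
    (h : FreeAlgebra.lift F v r = 0) :
    FreeAlgebra.lift F (fun i => (v i : Unitization F S)) r = 0 := by
  set y := FreeAlgebra.lift F (fun i => (v i : Unitization F S)) r with hy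
  have h1 : Unitization.fstHom F S y = 0 := by
    rw [← h0, hy]
    have : (Unitization.fstHom F S).comp (FreeAlgebra.lift F fun i => (v i : Unitization F S))
        = FreeAlgebra.lift F (fun _ : ℕ => (0 : F)) := by
      apply FreeAlgebra.hom_ext
      funext i
      simp
    rw [← this]; rfl
  have h2 : Unitization.lift (NonUnitalAlgHom.id F S) y = 0 := by
    rw [← h, hy]
    have : (Unitization.lift (NonUnitalAlgHom.id F S)).comp
        (FreeAlgebra.lift F fun i => (v i : Unitization F S)) = FreeAlgebra.lift F v := by
      apply FreeAlgebra.hom_ext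
      funext i
      simp
    rw [← this]; rfl
  have h3 : y.fst = 0 := h1
  have h4 : y = (y.snd : Unitization F S) := Unitization.ext (by rw [h3]; rfl) rfl
  rw [h4] at h2
  have h5 : Unitization.lift (NonUnitalAlgHom.id F S) (y.snd : Unitization F S) = y.snd := by
    simp
  rw [h5] at h2
  rw [h4, h2, Unitization.inr_zero]

/-- the equality problem of the fixed presentation is the halting problem -/
theorem main {Q : Type} [Fintype Q] (M : Sys Q Bool) (q : Q) (num : Gn Q M.B → ℕ)
    (hnum : Function.Injective num) (F : Type u) [Field F] [CharZero F]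
    (T : Set (FreeAlgebra F ℕ))
    (hT : ∀ r ∈ T, ∀ A : ℕ → Matrix (Fin 4) (Fin 4) F, (∀ i, A i ∈ E4 F) →
      FreeAlgebra.lift F A r = 0) (N : ℕ) :
    (Equality F T (rl M num, wd M num q N) ↔ M.Halts (some q) (ini N)) ∧
    (UnitalEquality F T (rl M num, wd M num q N) ↔ M.Halts (some q) (ini N)) := by
  have hT' : ∀ r ∈ T, ∀ A : ℕ → Matrix (Fin 4) (Fin 4) F, (∀ i, Tri4 (A i)) →
      FreeAlgebra.lift F A r = 0 := fun r hr A hA =>
    hT r hr A fun i => ⟨fun _ _ h => (hA i).apply h, (hA i).eq⟩
  -- the algebras satisfy the relations: halting implies that the word is zero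
  have fwd : ∀ (S : Type u) [Ring S] [Algebra F S] (w : ℕ → S), M.Halts (some q) (ini N) →
      (∀ p ∈ rl M num, value F w p = 0) → value F w (wd M num q N) = 0 := by
    intro S _ _ w hh hp
    have h1 := ((rl_iff M num w).1 hp).halts (some q) (ini N) hh q rfl
    have e1 : ini N true = N := rfl
    have e2 : ini N false = 0 := rfl
    rw [e1, e2, pow_zero, one_mul] at h1
    rw [value_wd]
    exact h1
  -- the model
  have bwd : (UnitalEquality F T (rl M num, wd M num q N) → M.Halts (some q) (ini N)) ∧
      (Equality F T (rl M num, wd M num q N) → M.Halts (some q) (ini N)) := by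
    have key : ∀ w : ℕ → TT M F, (∀ z, w (num z) = mk M F (io M F z)) →
        ¬ M.Halts (some q) (ini N) → (∀ p ∈ rl M num, value F w p = 0) ∧
          value F w (wd M num q N) ≠ 0 := by
      intro w hw hh
      constructor
      · rw [rl_iff M num w]
        have := rels M F
        simpa only [hw] using this
      · rw [value_wd]
        have h1 := word_ne M F q (ini N) hh
        have e1 : ini N true = N := rfl
        have e2 : ini N false = 0 := rfl
        rw [e1, e2, pow_zero, one_mul] at h1
        simpa only [hw] using h1
    set w : ℕ → TT M F := Function.extend num (fun z => mk M F (io M F z)) 0 with hw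
    have hw' : ∀ z, w (num z) = mk M F (io M F z) := fun z => hnum.extend_apply _ _ z
    constructor
    · intro h
      by_contra hh
      obtain ⟨k1, k2⟩ := key w hw' hh
      exact k2 (h (TT M F) (fun r hr v => ident M F r (hT' r hr) v) w k1)
    · intro h
      by_contra hh
      obtain ⟨k1, k2⟩ := key w hw' hh
      refine k2 (h (TT M F) (fun r hr v => ?_) w k1)
      refine lift_unitization r ?_ v (ident M F r (hT' r hr) v)
      have h0 := hT' r hr (fun _ => 0) fun i =>
        ⟨fun _ _ _ => by rw [Matrix.zero_apply], by rw [Matrix.zero_apply, Matrix.zero_apply]⟩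
      have h1 : FreeAlgebra.lift F (fun _ : ℕ => (0 : Matrix (Fin 4) (Fin 4) F)) r
          = algebraMap F (Matrix (Fin 4) (Fin 4) F) (FreeAlgebra.lift F (fun _ : ℕ => (0 : F)) r) := by
        have : (Algebra.ofId F (Matrix (Fin 4) (Fin 4) F)).comp
            (FreeAlgebra.lift F (fun _ : ℕ => (0 : F)))
            = FreeAlgebra.lift F (fun _ : ℕ => (0 : Matrix (Fin 4) (Fin 4) F)) := by
          apply FreeAlgebra.hom_ext
          funext i
          simp
        rw [← this]; rfl
      rw [h1] at h0
      have h2 := congrFun (congrFun h0 0) 0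
      rwa [Matrix.algebraMap_matrix_apply, if_pos rfl, Matrix.zero_apply] at h2
  refine ⟨⟨bwd.2, fun hh => ?_⟩, ⟨bwd.1, fun hh => ?_⟩⟩
  · intro R _ _ _ _ _ v hv
    have h1 := fwd (Unitization F R) (fun i => (v i : Unitization F R)) hh (fun p hp => by
      rw [← value_inr, hv p hp, Unitization.inr_zero])
    rw [← value_inr] at h1
    exact Unitization.inr_injective (h1.trans (Unitization.inr_zero F).symm)
  · intro R _ _ _ v hv
    exact fwd R v hh hv

/-- **Main theorem.** There is a finite list `U` of noncommutative polynomials (with rational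
coefficients, without constant term) such that for every field `F` of characteristic zero:
(1) for every set `T` of identities of `E₄` over `F`, in the variety of all algebras defined by
`T`, and also in the variety of unital algebras defined by `T`, no algorithm decides for a given
polynomial `u` whether the quasi-identity `U = 0 → u = 0` holds; in particular the equality
problem is undecidable in these varieties;
(2) this applies to `M(n)` for `n ≥ 3`: the equality problem in `M(n)` is undecidable;
(3) this applies to `S(n)` for `n ≥ 6`: the equality problem in `S(n)` is undecidable. -/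
theorem result : ∃ U : List Poly, ∀ (F : Type u) [Field F] [CharZero F],
    (∀ T : Set (FreeAlgebra F ℕ),
      (∀ r ∈ T, ∀ A : ℕ → Matrix (Fin 4) (Fin 4) F, (∀ i, A i ∈ E4 F) →
        FreeAlgebra.lift F A r = 0) →
      (¬ ComputablePred fun u : Poly => Equality F T (U, u)) ∧
      (¬ ComputablePred fun u : Poly => UnitalEquality F T (U, u)) ∧
      (¬ ComputablePred fun φ : QuasiIdentity => Equality F T φ) ∧
      (¬ ComputablePred fun φ : QuasiIdentity => UnitalEquality F T φ)) ∧
    (∀ n : ℕ, 3 ≤ n →
      (¬ ComputablePred fun u : Poly => Equality F (matrixIdentities F n) (U, u)) ∧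
      (¬ ComputablePred fun u : Poly => UnitalEquality F (matrixIdentities F n) (U, u)) ∧
      (¬ ComputablePred fun φ : QuasiIdentity => Equality F (matrixIdentities F n) φ) ∧
      (¬ ComputablePred fun φ : QuasiIdentity => UnitalEquality F (matrixIdentities F n) φ)) ∧
    (∀ n : ℕ, 6 ≤ n →
      (¬ ComputablePred fun u : Poly => Equality F {standard F n} (U, u)) ∧
      (¬ ComputablePred fun u : Poly => UnitalEquality F {standard F n} (U, u)) ∧
      (¬ ComputablePred fun φ : QuasiIdentity => Equality F {standard F n} φ) ∧
      (¬ ComputablePred fun φ : QuasiIdentity => UnitalEquality F {standard F n} φ)) := by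
  obtain ⟨Q, hQ, M, q0, N, -, -, hN, hund⟩ := exists_sys
  let _ : Fintype Q := Fintype.ofFinite Q
  obtain ⟨k, ⟨e⟩⟩ := Finite.exists_equiv_fin (Gn Q M.B)
  set num : Gn Q M.B → ℕ := fun z => (e z : ℕ) with hnum
  have hinj : Function.Injective num := fun x y h => e.injective (Fin.ext h)
  have key : ∀ (F : Type u) [Field F] [CharZero F] (T : Set (FreeAlgebra F ℕ)),
      (∀ r ∈ T, ∀ A : ℕ → Matrix (Fin 4) (Fin 4) F, (∀ i, A i ∈ E4 F) →
        FreeAlgebra.lift F A r = 0) →
      (¬ ComputablePred fun u : Poly => Equality F T (rl M num, u)) ∧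
      (¬ ComputablePred fun u : Poly => UnitalEquality F T (rl M num, u)) ∧
      (¬ ComputablePred fun φ : QuasiIdentity => Equality F T φ) ∧
      (¬ ComputablePred fun φ : QuasiIdentity => UnitalEquality F T φ) := by
    intro F _ _ T hT
    have hc : Computable fun n => wd M num q0 (N n) := wd_computable M num q0 hN
    have hc2 : Computable fun u : Poly => ((rl M num, u) : QuasiIdentity) :=
      Computable.pair (Computable.const _) Computable.id
    have h1 : ¬ ComputablePred fun u : Poly => Equality F T (rl M num, u) := by
      intro h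
      refine hund ?_
      refine ComputablePred.computable_of_manyOneReducible ⟨_, hc, fun n => ?_⟩ h
      exact (main M q0 num hinj F T hT (N n)).1.symm
    have h2 : ¬ ComputablePred fun u : Poly => UnitalEquality F T (rl M num, u) := by
      intro h
      refine hund ?_
      refine ComputablePred.computable_of_manyOneReducible ⟨_, hc, fun n => ?_⟩ h
      exact (main M q0 num hinj F T hT (N n)).2.symm
    refine ⟨h1, h2, fun h => h1 ?_, fun h => h2 ?_⟩
    · exact ComputablePred.computable_of_manyOneReducible ⟨_, hc2, fun u => Iff.rfl⟩ h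
    · exact ComputablePred.computable_of_manyOneReducible ⟨_, hc2, fun u => Iff.rfl⟩ h
  refine ⟨rl M num, fun F _ _ => ⟨key F, fun n hn => key F _ ?_, fun n hn => key F _ ?_⟩⟩
  · intro r hr A hA
    exact tri4_of_mat hn r hr A fun i => ⟨fun a b hab => (hA i).1 a b (by simpa using hab), (hA i).2⟩
  · intro r hr A hA
    rw [Set.mem_singleton_iff] at hr
    subst hr
    have h1 := Pool.Agent.H682R2.StdNil.std_map
      (FreeAlgebra.lift F A : FreeAlgebra F ℕ →ₐ[F] Matrix (Fin 4) (Fin 4) F).toRingHom
      (fun i : Fin n => FreeAlgebra.ι F (i : ℕ))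
    refine h1.trans ?_
    refine std_tri4 hn _ fun i => ?_
    have h2 : (FreeAlgebra.lift F A : FreeAlgebra F ℕ →ₐ[F] Matrix (Fin 4) (Fin 4) F).toRingHom
        (FreeAlgebra.ι F (i : ℕ)) = A i := FreeAlgebra.lift_ι_apply _ _
    rw [h2]
    exact ⟨fun a b hab => (hA i).1 a b (by simpa using hab), (hA i).2⟩

end Pool.Agent.Results.MP_79b5eb_lc.MatrixAndStandard
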